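import Pool.Agent.R841.TC.StmG

namespace Pool.Agent.R841.TC

open Matrix

universe u

theorem cstar_sumSq (A : Type u) [CStarAlgebra A] : SumSq A := by
  let _ := CStarAlgebra.spectralOrder A
  let _ := CStarAlgebra.spectralOrderedRing A
  intro m c
  have h : (0 : A) ≤ ∑ i, star (c i) * c i :=
    Finset.sum_nonneg fun i _ => star_mul_self_nonneg (c i)
  obtain ⟨d, hd⟩ := CStarAlgebra.nonneg_iff_eq_star_mul_self.mp h
  exact ⟨d, hd⟩

theorem cstar_prop' (A : Type u) [CStarAlgebra A] : Prop' A := by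
  let _ := CStarAlgebra.spectralOrder A
  let _ := CStarAlgebra.spectralOrderedRing A
  intro m c h i
  have h1 := (Finset.sum_eq_zero_iff_of_nonneg
    (fun i _ => star_mul_self_nonneg (c i))).mp h i (Finset.mem_univ i)
  exact CStarRing.star_mul_self_eq_zero_iff (c i) |>.mp h1

theorem wpol_subs (B : Type u) [Ring B] [StarRing B] [Subsingleton B] : WPol B :=
  fun _ _ _ => ⟨0, 0, Subsingleton.elim _ _, Subsingleton.elim _ _⟩

theorem part2 (h1 : S_GCS.{u}) (h2 : S_GNEC.{u}) (h3 : S_GSUF.{u}) (A : Type u)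
    [CStarAlgebra A] :
    (PTC (Matrix (Fin 2) (Fin 2) A) → WPol A) ∧
      ((∀ k : ℕ, 0 < k → WPol (Matrix (Fin k) (Fin k) A)) → PTC A) := by
  refine ⟨h2 A (cstar_sumSq A) (cstar_prop' A), fun h => h3 A (fun m => (h1 A m).1) fun k => ?_⟩
  rcases Nat.eq_zero_or_pos k with hk | hk
  · subst hk
    exact wpol_subs _
  · exact h k hk

/-- the unit interval is not an F-space -/
theorem not_fspace_unitInterval : ¬ FSpace unitInterval := by
  intro h
  obtain ⟨g, hg⟩ := h ⟨fun x => (x : ℝ) - 1 / 2, by fun_prop⟩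
  simp only [ContinuousMap.coe_mk] at hg
  have hmem : ∀ n : ℕ, (1 / 2 + 1 / ((n : ℝ) + 2)) ∈ Set.Icc (0 : ℝ) 1 := by
    intro n
    have : (0 : ℝ) < (n : ℝ) + 2 := by positivity
    refine ⟨by positivity, ?_⟩
    have : 1 / ((n : ℝ) + 2) ≤ 1 / 2 := by
      apply one_div_le_one_div_of_le (by norm_num); linarith [n.cast_nonneg (α := ℝ)]
    linarith
  have hmem' : ∀ n : ℕ, (1 / 2 - 1 / ((n : ℝ) + 2)) ∈ Set.Icc (0 : ℝ) 1 := by
    intro n
    have h2 : 1 / ((n : ℝ) + 2) ≤ 1 / 2 := by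
      apply one_div_le_one_div_of_le (by norm_num); linarith [n.cast_nonneg (α := ℝ)]
    have h3 : (0 : ℝ) < 1 / ((n : ℝ) + 2) := by positivity
    exact ⟨by linarith, by linarith⟩
  have hhalf : (1 / 2 : ℝ) ∈ Set.Icc (0 : ℝ) 1 := by norm_num
  have hlim : Filter.Tendsto (fun n : ℕ => 1 / ((n : ℝ) + 2)) Filter.atTop (nhds 0) := by
    have := (tendsto_const_nhds (x := (1 : ℝ))).div_atTop
      (Filter.tendsto_atTop_add_const_right Filter.atTop (2 : ℝ)
        (tendsto_natCast_atTop_atTop (R := ℝ)))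
    simpa using this
  have hp : Filter.Tendsto (fun n : ℕ => (⟨_, hmem n⟩ : unitInterval)) Filter.atTop
      (nhds ⟨1 / 2, hhalf⟩) := by
    rw [tendsto_subtype_rng]
    simpa using hlim.const_add (1 / 2 : ℝ)
  have hm : Filter.Tendsto (fun n : ℕ => (⟨_, hmem' n⟩ : unitInterval)) Filter.atTop
      (nhds ⟨1 / 2, hhalf⟩) := by
    rw [tendsto_subtype_rng]
    simpa using hlim.const_sub (1 / 2 : ℝ)
  have gp := (g.continuous.tendsto _).comp hp
  have gm := (g.continuous.tendsto _).comp hm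
  have e1 : ∀ n : ℕ, g ⟨_, hmem n⟩ = 1 := by
    intro n
    have h3 : (0 : ℝ) < 1 / ((n : ℝ) + 2) := by positivity
    have h4 := hg ⟨_, hmem n⟩
    have h5 : (1 / 2 + 1 / ((n : ℝ) + 2)) - 1 / 2 = 1 / ((n : ℝ) + 2) := by ring
    simp only [h5] at h4
    rw [abs_of_pos h3] at h4
    have h6 : (g ⟨_, hmem n⟩ - 1) * (1 / ((n : ℝ) + 2)) = 0 := by linarith
    rcases mul_eq_zero.mp h6 with h | h
    · linarith
    · exact absurd h (ne_of_gt h3)
  have e2 : ∀ n : ℕ, g ⟨_, hmem' n⟩ = -1 := by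
    intro n
    have h3 : (0 : ℝ) < 1 / ((n : ℝ) + 2) := by positivity
    have h4 := hg ⟨_, hmem' n⟩
    have h5 : (1 / 2 - 1 / ((n : ℝ) + 2)) - 1 / 2 = -(1 / ((n : ℝ) + 2)) := by ring
    simp only [h5] at h4
    rw [abs_neg, abs_of_pos h3] at h4
    have h6 : (g ⟨_, hmem' n⟩ + 1) * (1 / ((n : ℝ) + 2)) = 0 := by linarith
    rcases mul_eq_zero.mp h6 with h | h
    · linarith
    · exact absurd h (ne_of_gt h3)
  have l1 := tendsto_nhds_unique gp (by
    simp only [Function.comp_def, e1]; exact tendsto_const_nhds)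
  have l2 := tendsto_nhds_unique gm (by
    simp only [Function.comp_def, e2]; exact tendsto_const_nhds)
  linarith

end Pool.Agent.R841.TC
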