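import Pool.Agent.R841.TC.Stm

/-!
TC-TOEP: the block Toeplitz matrix of the powers of a contraction is positive semidefinite.
-/

set_option autoImplicit false

namespace Pool.Agent.R841.TC

open Matrix
open scoped ComplexOrder

namespace Toep

variable {ι ν : Type} [Fintype ι] [DecidableEq ι]

/-- `D_0 = 1`, `D_m = 1 - Uᴴ U` -/
def DD (U : Matrix ι ι ℂ) (m : ℕ) : Matrix ι ι ℂ := if m = 0 then 1 else 1 - Uᴴ * U

/-- blocks of the factor -/
def BB (U : Matrix ι ι ℂ) (R : Matrix ι ν ℂ) (m j : ℕ) : Matrix ι ν ℂ :=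
  if m ≤ j then U ^ (j - m) * R else 0

theorem tele (U : Matrix ι ι ℂ) (i j : ℕ) : ∀ k : ℕ, k ≤ i → k ≤ j →
    ∑ m ∈ Finset.range (k + 1), (Uᴴ) ^ (i - m) * DD U m * U ^ (j - m) =
      (Uᴴ) ^ (i - k) * U ^ (j - k) := by
  intro k
  induction k with
  | zero =>
    intro _ _
    simp [DD]
  | succ k ih =>
    intro hi hj
    rw [Finset.sum_range_succ, ih (by omega) (by omega)]
    have hD : DD U (k + 1) = 1 - Uᴴ * U := by simp [DD]
    have ei : i - k = (i - (k + 1)) + 1 := by omega
    have ej : j - k = (j - (k + 1)) + 1 := by omega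
    rw [hD, ei, ej, pow_succ, pow_succ' U]
    noncomm_ring

theorem block (U : Matrix ι ι ℂ) (R : Matrix ι ν ℂ) (n i j : ℕ) (hi : i < n) (hj : j < n) :
    ∑ m ∈ Finset.range n, (BB U R m i)ᴴ * DD U m * BB U R m j =
      if j ≤ i then Rᴴ * (Uᴴ) ^ (i - j) * R else Rᴴ * U ^ (j - i) * R := by
  have h1 : ∑ m ∈ Finset.range n, (BB U R m i)ᴴ * DD U m * BB U R m j =
      ∑ m ∈ Finset.range (min i j + 1), (BB U R m i)ᴴ * DD U m * BB U R m j := by
    symm
    apply Finset.sum_subset
    · intro m hm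
      rw [Finset.mem_range] at hm ⊢
      omega
    · intro m _ hm
      rw [Finset.mem_range, not_lt] at hm
      rcases lt_or_ge i m with h | h
      · have : BB U R m i = 0 := by simp [BB, not_le.mpr h]
        rw [this]
        simp
      · have h' : j < m := by omega
        have : BB U R m j = 0 := by simp [BB, not_le.mpr h']
        rw [this]
        simp
  have h2 : ∑ m ∈ Finset.range (min i j + 1), (BB U R m i)ᴴ * DD U m * BB U R m j =
      ∑ m ∈ Finset.range (min i j + 1), Rᴴ * ((Uᴴ) ^ (i - m) * DD U m * U ^ (j - m)) * R := by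
    apply Finset.sum_congr rfl
    intro m hm
    rw [Finset.mem_range] at hm
    have e1 : BB U R m i = U ^ (i - m) * R := by
      rw [BB, if_pos (by omega)]
    have e2 : BB U R m j = U ^ (j - m) * R := by
      rw [BB, if_pos (by omega)]
    rw [e1, e2, conjTranspose_mul, conjTranspose_pow]
    simp only [Matrix.mul_assoc]
  have h3 : ∑ m ∈ Finset.range (min i j + 1), Rᴴ * ((Uᴴ) ^ (i - m) * DD U m * U ^ (j - m)) * R =
      Rᴴ * (∑ m ∈ Finset.range (min i j + 1), (Uᴴ) ^ (i - m) * DD U m * U ^ (j - m)) * R := by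
    rw [Matrix.mul_sum, Matrix.sum_mul]
  rw [h1, h2, h3, tele U i j (min i j) (by omega) (by omega)]
  split_ifs with h
  · rw [min_eq_right h, Nat.sub_self, pow_zero, Matrix.mul_one]
  · rw [min_eq_left (by omega), Nat.sub_self, pow_zero, Matrix.one_mul]

/-- the factor -/
def LL (n : ℕ) (U : Matrix ι ι ℂ) (R : Matrix ι ν ℂ) (m : ℕ) : Matrix ι (Fin n × ν) ℂ :=
  Matrix.of fun t a => BB U R m a.1 t a.2

theorem TB_eq [Fintype ν] (n : ℕ) (U : Matrix ι ι ℂ) (R : Matrix ι ν ℂ) :
    TB n U R = ∑ m ∈ Finset.range n, (LL n U R m)ᴴ * DD U m * LL n U R m := by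
  ext a b
  have hb := congrFun (congrFun (block U R n a.1 b.1 a.1.2 b.1.2) a.2) b.2
  rw [Matrix.sum_apply] at hb ⊢
  have h1 : ∀ m, ((LL n U R m)ᴴ * DD U m * LL n U R m) a b =
      ((BB U R m a.1)ᴴ * DD U m * BB U R m b.1) a.2 b.2 := by
    intro m
    simp only [Matrix.mul_apply, Matrix.conjTranspose_apply, LL, Matrix.of_apply]
  simp only [h1]
  rw [hb]
  simp only [TB, Matrix.of_apply]
  split_ifs <;> rfl

theorem main [Fintype ν] (n : ℕ) (U : Matrix ι ι ℂ) (R : Matrix ι ν ℂ) (hU : Contr U) :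
    (TB n U R).PosSemidef := by
  rw [TB_eq]
  apply Finset.sum_induction _ (fun M : Matrix (Fin n × ν) (Fin n × ν) ℂ => M.PosSemidef)
  · intro A B hA hB
    exact hA.add hB
  · exact Matrix.PosSemidef.zero
  · intro m _
    have hD : (DD U m).PosSemidef := by
      unfold DD
      split_ifs
      · exact Matrix.PosSemidef.one
      · exact hU
    exact hD.conjTranspose_mul_mul_same _

end Toep

theorem toep : S_TOEP := fun _ _ _ _ _ _ n U R hU => Toep.main n U R hU

end Pool.Agent.R841.TC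

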