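import Pool.Agent.R841.TCF.EXT
import Pool.Agent.R841.TCF.MEXT
import Pool.Agent.R841.TCF.PHI
import Pool.Agent.R841.TCF.RK
import Pool.Agent.R841.TCF.CONX
import Pool.Agent.R841.TCF.IND
import Pool.Agent.R841.TCF.SQRT
import Pool.Agent.R841.TCF.TOEP
import Pool.Agent.R841.TCF.SUF
import Pool.Agent.R841.TCF.GRAM
import Pool.Agent.R841.TCF.NEC
import Pool.Agent.R841.TCF.GCS
import Pool.Agent.R841.TCF.GNEC
import Pool.Agent.R841.TCF.GSUF
import Pool.Agent.R841.TCF.GISO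
import Pool.Agent.R841.TCF.GMAIN
import Pool.Agent.R841.TCF.Small

namespace Pool.Agent.R841.TC

universe u

theorem main_CX (X : Type u) [TopologicalSpace X] (N : ℕ) (hN : 2 ≤ N) :
    PTC C(X, Matrix (Fin N) (Fin N) ℂ) ↔ FSpace X :=
  ⟨nec gram X N hN, suf (ind (mext ext) phi_facts rk con) sqrt_cont toep X N⟩

theorem main_stable (A : Type u) [CStarAlgebra A] :
    (∀ n : ℕ, 0 < n → PTC (Matrix (Fin n) (Fin n) A)) ↔
      (∀ n : ℕ, 0 < n → WPol (Matrix (Fin n) (Fin n) A)) :=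
  gmain gcs gnec gsuf giso A

theorem main_two (A : Type u) [CStarAlgebra A] :
    (PTC (Matrix (Fin 2) (Fin 2) A) → WPol A) ∧
      ((∀ k : ℕ, 0 < k → WPol (Matrix (Fin k) (Fin k) A)) → PTC A) :=
  part2 gcs gnec gsuf A

theorem main_interval : ¬ PTC C(unitInterval, Matrix (Fin 2) (Fin 2) ℂ) := fun h =>
  not_fspace_unitInterval ((main_CX unitInterval 2 le_rfl).mp h)

end Pool.Agent.R841.TC
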